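import Mathlib

set_option autoImplicit false

/-!
Linear forms `n x + q y + r` with `1 ≤ q ≤ n`: for almost all `(y, x)` one of four sign and order
changes of `(y, x)` has infinitely many good approximations.
-/

namespace Pool.Agent.D0H41.LF

open Filter Topology MeasureTheory Set

/-- Dirichlet's theorem for one linear form in two variables. -/
theorem dirichlet (x y : ℝ) (Q : ℕ) (hQ : 1 ≤ Q) :
    ∃ p q r : ℤ, (p ≠ 0 ∨ q ≠ 0) ∧ |p| ≤ Q ∧ |q| ≤ Q ∧ |(p : ℝ) * x + q * y + r| < 1 / (Q : ℝ) ^ 2 := by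
  classical
  have hQR : (1 : ℝ) ≤ Q := by exact_mod_cast hQ
  have hQ2 : (0 : ℝ) < (Q : ℝ) ^ 2 := by positivity
  set f : ℕ × ℕ → ℕ := fun a => ⌊Int.fract ((a.1 : ℝ) * x + a.2 * y) * (Q : ℝ) ^ 2⌋₊ with hf
  have hmaps : ∀ a ∈ Finset.range (Q + 1) ×ˢ Finset.range (Q + 1), f a ∈ Finset.range (Q ^ 2) := by
    intro a _
    rw [Finset.mem_range, hf]
    rw [Nat.floor_lt (by positivity)]
    push_cast
    nlinarith [Int.fract_lt_one ((a.1 : ℝ) * x + a.2 * y)]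
  have hcard : (Finset.range (Q ^ 2)).card < (Finset.range (Q + 1) ×ˢ Finset.range (Q + 1)).card := by
    rw [Finset.card_product, Finset.card_range, Finset.card_range]
    nlinarith
  obtain ⟨a, ha, b, hb, hab, hfab⟩ := Finset.exists_ne_map_eq_of_card_lt_of_maps_to hcard hmaps
  rw [Finset.mem_product, Finset.mem_range, Finset.mem_range] at ha hb
  set u : ℝ := (a.1 : ℝ) * x + a.2 * y with hu
  set v : ℝ := (b.1 : ℝ) * x + b.2 * y with hv
  refine ⟨(a.1 : ℤ) - b.1, (a.2 : ℤ) - b.2, ⌊v⌋ - ⌊u⌋, ?_, ?_, ?_, ?_⟩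
  · by_contra hcon
    push Not at hcon
    apply hab
    ext
    · omega
    · omega
  · rw [abs_le]
    constructor <;> omega
  · rw [abs_le]
    constructor <;> omega
  · have e : (((a.1 : ℤ) - b.1 : ℤ) : ℝ) * x + (((a.2 : ℤ) - b.2 : ℤ) : ℝ) * y + ((⌊v⌋ - ⌊u⌋ : ℤ) : ℝ) =
        Int.fract u - Int.fract v := by
      rw [← Int.self_sub_floor, ← Int.self_sub_floor, hu, hv]
      push_cast
      ring
    rw [e]
    have h1 : (⌊Int.fract u * (Q : ℝ) ^ 2⌋₊ : ℝ) = (⌊Int.fract v * (Q : ℝ) ^ 2⌋₊ : ℝ) := by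
      exact congrArg (Nat.cast : ℕ → ℝ) hfab
    have hu0 : 0 ≤ Int.fract u * (Q : ℝ) ^ 2 := by
      have := Int.fract_nonneg u
      positivity
    have hv0 : 0 ≤ Int.fract v * (Q : ℝ) ^ 2 := by
      have := Int.fract_nonneg v
      positivity
    have h2 := Nat.floor_le hu0
    have h3 := Nat.floor_le hv0
    have h4 := Nat.lt_floor_add_one (Int.fract u * (Q : ℝ) ^ 2)
    have h5 := Nat.lt_floor_add_one (Int.fract v * (Q : ℝ) ^ 2)
    rw [lt_div_iff₀ hQ2, ← abs_of_pos hQ2, ← abs_mul, abs_lt, sub_mul]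
    constructor <;> linarith

/-- `G C (y, x)`: for infinitely many `n` there is `1 ≤ q ≤ n` with `‖n x + q y‖ < C / n ^ 2`. -/
def G (C : ℝ) : Set (ℝ × ℝ) :=
  {z | ∃ᶠ n : ℕ in atTop, ∃ q : ℕ, 1 ≤ q ∧ q ≤ n ∧ ∃ r : ℤ,
    |(n : ℝ) * z.2 + q * z.1 + r| < C / (n : ℝ) ^ 2}

/-- a number which is not very well approximable -/
def Tame (x : ℝ) : Prop := ∀ᶠ n : ℕ in atTop, ∀ r : ℤ, 1 / (n : ℝ) ^ 2 ≤ |(n : ℝ) * x + r|

theorem tame_of_not_liouville {x : ℝ} (h : ¬ LiouvilleWith 3 x) (hx : Irrational x) : Tame x := by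
  by_contra hcon
  unfold Tame at hcon
  rw [not_eventually] at hcon
  apply h
  refine ⟨1, ?_⟩
  have h2 := hcon.and_eventually (eventually_ge_atTop 1)
  refine h2.mono ?_
  rintro n ⟨hn, hn1⟩
  push Not at hn
  obtain ⟨r, hr⟩ := hn
  have hnR : (1 : ℝ) ≤ n := by exact_mod_cast hn1
  have hn0 : (0 : ℝ) < n := by linarith
  refine ⟨-r, ?_, ?_⟩
  · intro he
    apply hx
    refine ⟨(-r : ℤ) / (n : ℚ), ?_⟩
    rw [he]
    push_cast
    ring
  · have e : x - ((-r : ℤ) : ℝ) / n = ((n : ℝ) * x + r) / n := by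
      push_cast
      field_simp
      ring
    rw [e, abs_div, abs_of_pos hn0, div_lt_div_iff₀ hn0 (by positivity)]
    rw [lt_div_iff₀ (by positivity)] at hr
    have e3 : (n : ℝ) ^ (3 : ℝ) = (n : ℝ) ^ 3 := by
      rw [← Real.rpow_natCast]
      norm_num
    rw [e3]
    nlinarith

theorem four {x y : ℝ} (hx : Tame x) (hy : Tame y)
    (hxy : ∀ p q r : ℤ, (p ≠ 0 ∨ q ≠ 0) → (p : ℝ) * x + q * y + r ≠ 0) :
    (y, x) ∈ G 1 ∨ (-y, x) ∈ G 1 ∨ (x, y) ∈ G 1 ∨ (-x, y) ∈ G 1 := by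
  classical
  by_contra hcon
  push Not at hcon
  obtain ⟨h1, h2, h3, h4⟩ := hcon
  simp only [G, mem_ofPred_eq, not_frequently] at h1 h2 h3 h4
  have hall := h1.and (h2.and (h3.and (h4.and (hx.and hy))))
  rw [eventually_atTop] at hall
  obtain ⟨N0, hN0⟩ := hall
  set N : ℕ := N0 + 1 with hN
  -- a lower bound for small coefficients
  obtain ⟨δ, hδ, hδ2⟩ : ∃ δ : ℝ, 0 < δ ∧ ∀ p q r : ℤ, (p ≠ 0 ∨ q ≠ 0) → |p| ≤ N → |q| ≤ N →
      δ ≤ |(p : ℝ) * x + q * y + r| := by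
    set S : Finset (ℤ × ℤ) := ((Finset.Icc (-(N : ℤ)) N) ×ˢ (Finset.Icc (-(N : ℤ)) N)).filter
      (fun a => a.1 ≠ 0 ∨ a.2 ≠ 0) with hS
    have hSne : S.Nonempty := by
      refine ⟨(1, 0), ?_⟩
      rw [hS, Finset.mem_filter, Finset.mem_product, Finset.mem_Icc, Finset.mem_Icc]
      refine ⟨⟨⟨?_, ?_⟩, ?_, ?_⟩, Or.inl ?_⟩ <;> simp [hN] <;> omega
    obtain ⟨a, ha, hmin⟩ := S.exists_min_image
      (fun a => |(a.1 : ℝ) * x + a.2 * y - round ((a.1 : ℝ) * x + a.2 * y)|) hSne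
    refine ⟨|(a.1 : ℝ) * x + a.2 * y - round ((a.1 : ℝ) * x + a.2 * y)|, ?_, ?_⟩
    · rw [abs_pos]
      rw [hS, Finset.mem_filter] at ha
      have := hxy a.1 a.2 (-round ((a.1 : ℝ) * x + a.2 * y)) ha.2
      push_cast at this
      rwa [← sub_eq_add_neg] at this
    · intro p q r hpq hp hq
      have hmem : (p, q) ∈ S := by
        rw [hS, Finset.mem_filter, Finset.mem_product, Finset.mem_Icc, Finset.mem_Icc]
        rw [abs_le] at hp hq
        exact ⟨⟨hp, hq⟩, hpq⟩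
      refine (hmin (p, q) hmem).trans ?_
      have := round_le ((p : ℝ) * x + q * y) (-r)
      push_cast at this
      rwa [sub_neg_eq_add] at this
  obtain ⟨Q, hQ1, hQ2⟩ : ∃ Q : ℕ, 1 ≤ Q ∧ 1 / (Q : ℝ) ^ 2 ≤ δ := by
    obtain ⟨Q, hQ⟩ := exists_nat_gt (1 / δ)
    have hQ0 : (0 : ℝ) < Q := lt_trans (by positivity) hQ
    have hQ1 : 1 ≤ Q := by
      have : 0 < Q := by exact_mod_cast hQ0
      omega
    refine ⟨Q, hQ1, ?_⟩
    have hQR : (1 : ℝ) ≤ Q := by exact_mod_cast hQ1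
    rw [div_le_iff₀ (by positivity)]
    rw [div_lt_iff₀ hδ] at hQ
    nlinarith
  obtain ⟨p, q, r, hpq, hp, hq, hlt⟩ := dirichlet x y Q hQ1
  have hbig : (N : ℤ) < |p| ∨ (N : ℤ) < |q| := by
    by_contra hc
    push Not at hc
    have := hδ2 p q r hpq hc.1 hc.2
    linarith
  have hQR : (1 : ℝ) ≤ Q := by exact_mod_cast hQ1
  -- comparison of `1 / Q ^ 2` with `1 / m ^ 2`
  have hcmp : ∀ m : ℕ, 1 ≤ m → m ≤ Q → 1 / (Q : ℝ) ^ 2 ≤ 1 / (m : ℝ) ^ 2 := by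
    intro m hm hmQ
    have h1 : (1 : ℝ) ≤ m := by exact_mod_cast hm
    have h2 : (m : ℝ) ≤ Q := by exact_mod_cast hmQ
    apply one_div_le_one_div_of_le (by positivity)
    gcongr
  -- the basic step: a form with coefficients `(a, b)`, `|b| ≤ |a|`, `|a| > N`
  have step : ∀ (a b s : ℤ) (u v : ℝ), |b| ≤ |a| → (N : ℤ) < |a| → |a| ≤ Q →
      |(a : ℝ) * u + b * v + s| < 1 / (Q : ℝ) ^ 2 →
      (∃ n : ℕ, N ≤ n ∧ ∃ t : ℤ, |(n : ℝ) * u + t| < 1 / (n : ℝ) ^ 2) ∨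
      (∃ n : ℕ, N ≤ n ∧ ∃ m : ℕ, 1 ≤ m ∧ m ≤ n ∧ ∃ t : ℤ,
        |(n : ℝ) * u + m * v + t| < 1 / (n : ℝ) ^ 2) ∨
      (∃ n : ℕ, N ≤ n ∧ ∃ m : ℕ, 1 ≤ m ∧ m ≤ n ∧ ∃ t : ℤ,
        |(n : ℝ) * u + m * (-v) + t| < 1 / (n : ℝ) ^ 2) := by
    -- reduce to `a > 0`
    have pos : ∀ (a b s : ℤ) (u v : ℝ), 0 < a → |b| ≤ a → (N : ℤ) < a → a ≤ Q →
      |(a : ℝ) * u + b * v + s| < 1 / (Q : ℝ) ^ 2 →
      (∃ n : ℕ, N ≤ n ∧ ∃ t : ℤ, |(n : ℝ) * u + t| < 1 / (n : ℝ) ^ 2) ∨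
      (∃ n : ℕ, N ≤ n ∧ ∃ m : ℕ, 1 ≤ m ∧ m ≤ n ∧ ∃ t : ℤ,
        |(n : ℝ) * u + m * v + t| < 1 / (n : ℝ) ^ 2) ∨
      (∃ n : ℕ, N ≤ n ∧ ∃ m : ℕ, 1 ≤ m ∧ m ≤ n ∧ ∃ t : ℤ,
        |(n : ℝ) * u + m * (-v) + t| < 1 / (n : ℝ) ^ 2) := by
      intro a b s u v ha hb hNa haQ hlt
      obtain ⟨n, rfl⟩ := Int.eq_ofNat_of_zero_le ha.le
      have hn1 : 1 ≤ n := by omega
      have hc := hcmp n hn1 (by exact_mod_cast haQ)
      rcases lt_trichotomy b 0 with hb0 | hb0 | hb0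
      · right; right
        obtain ⟨m, hm⟩ := Int.eq_ofNat_of_zero_le (show 0 ≤ -b by omega)
        refine ⟨n, by omega, m, by omega, ?_, s, ?_⟩
        · rw [abs_of_neg hb0] at hb
          omega
        · have hbm : (b : ℝ) = -(m : ℝ) := by
            have : b = -(m : ℤ) := by omega
            rw [this]
            push_cast
            ring
          rw [hbm] at hlt
          push_cast at hlt
          have e : (n : ℝ) * u + m * (-v) + s = (n : ℝ) * u + -(m : ℝ) * v + s := by ring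
          rw [e]
          exact lt_of_lt_of_le hlt hc
      · left
        refine ⟨n, by omega, s, ?_⟩
        rw [hb0] at hlt
        push_cast at hlt
        rw [zero_mul, add_zero] at hlt
        exact lt_of_lt_of_le hlt hc
      · right; left
        obtain ⟨m, rfl⟩ := Int.eq_ofNat_of_zero_le hb0.le
        refine ⟨n, by omega, m, by omega, ?_, s, ?_⟩
        · rw [abs_of_pos hb0] at hb
          omega
        · push_cast at hlt
          exact lt_of_lt_of_le hlt hc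
    intro a b s u v hb hNa haQ hlt
    rcases lt_trichotomy a 0 with ha | ha | ha
    · rw [abs_of_neg ha] at hb hNa haQ
      refine pos (-a) (-b) (-s) u v (by omega) (by rwa [abs_neg]) hNa haQ ?_
      push_cast
      have e : -(a : ℝ) * u + -(b : ℝ) * v + -(s : ℝ) = -((a : ℝ) * u + b * v + s) := by ring
      rw [e, abs_neg]
      exact hlt
    · rw [ha, abs_zero] at hNa
      omega
    · rw [abs_of_pos ha] at hb hNa haQ
      exact pos a b s u v ha hb hNa haQ hlt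
  rcases le_total |q| |p| with hle | hle
  · have hNp : (N : ℤ) < |p| := by
      rcases hbig with h | h
      · exact h
      · omega
    rcases step p q r x y hle hNp hp hlt with ⟨n, hn, t, ht⟩ | ⟨n, hn, m, hm1, hm2, t, ht⟩ |
      ⟨n, hn, m, hm1, hm2, t, ht⟩
    · have := (hN0 n (by omega)).2.2.2.2.1 t
      linarith
    · exact (hN0 n (by omega)).1 ⟨m, hm1, hm2, t, ht⟩
    · exact (hN0 n (by omega)).2.1 ⟨m, hm1, hm2, t, ht⟩
  · have hNq : (N : ℤ) < |q| := by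
      rcases hbig with h | h
      · omega
      · exact h
    have hlt' : |(q : ℝ) * y + p * x + r| < 1 / (Q : ℝ) ^ 2 := by
      have e : (q : ℝ) * y + p * x + r = (p : ℝ) * x + q * y + r := by ring
      rw [e]
      exact hlt
    rcases step q p r y x hle hNq hq hlt' with ⟨n, hn, t, ht⟩ | ⟨n, hn, m, hm1, hm2, t, ht⟩ |
      ⟨n, hn, m, hm1, hm2, t, ht⟩
    · have := (hN0 n (by omega)).2.2.2.2.2 t
      linarith
    · exact (hN0 n (by omega)).2.2.1 ⟨m, hm1, hm2, t, ht⟩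
    · exact (hN0 n (by omega)).2.2.2.1 ⟨m, hm1, hm2, t, ht⟩

end Pool.Agent.D0H41.LF
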