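import Pool.Agent.D0H41.LF.ZeroOne
import Pool.Agent.R331.MT.Three

set_option autoImplicit false

/-!
Lower bound for the Hausdorff dimension of the limsup set, by slicing.
-/

namespace Pool.Agent.D0H41.LF

open Filter Topology MeasureTheory Set Metric
open scoped ENNReal

/-- the limsup set in the plane, the points being written `(y, x)` -/
def F (w : ℝ) : Set (ℝ × ℝ) :=
  {z | ∃ᶠ n : ℕ in atTop, ∃ q : ℕ, 1 ≤ q ∧ q ≤ n ∧ ∃ r : ℤ,
    |(n : ℝ) * z.2 + q * z.1 + r| < (n : ℝ) ^ (-w)}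

theorem slice_content {v w s : ℝ} (hv0 : 0 < v) (hv : v < 2) (hvw : v < w) (hs : 0 < s)
    (hst : s < (v + 1) / (w + 1)) :
    ∀ᵐ y : ℝ, ∀ A : ℕ → Set ℝ, {x | (y, x) ∈ F w} ∩ Icc 0 1 ⊆ ⋃ j, A j →
      ENNReal.ofReal (1 / 20) ≤ ∑' j, Metric.ediam (A j) ^ s := by
  have hw1 : 0 < w + 1 := by linarith
  have hv1 : 0 < v + 1 := by linarith
  filter_upwards [ae_exp hv] with y hy A hA
  have ht : (v + 1) / (w + 1) ≤ 1 := by
    rw [div_le_one hw1]
    linarith
  set C : ℕ → Set ℝ := fun n => {c | ∃ q : ℕ, 1 ≤ q ∧ q ≤ n + 1 ∧ ∃ r : ℤ,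
    c = -(q * y + r) / ((n : ℝ) + 1)} with hC
  set ρ : ℕ → ℝ := fun n => ((n : ℝ) + 1) ^ (-(v + 1)) with hρ
  have hpos : ∀ n : ℕ, (0 : ℝ) < (n : ℝ) + 1 := fun n => by positivity
  -- shift of the index
  have hshift : ∀ P : ℕ → Prop, (∃ᶠ n : ℕ in atTop, P n) → ∃ᶠ n : ℕ in atTop, P (n + 1) := by
    intro P hP
    rw [frequently_atTop] at hP ⊢
    intro N
    obtain ⟨m, hm, hPm⟩ := hP (N + 1)
    refine ⟨m - 1, by omega, ?_⟩
    rwa [show m - 1 + 1 = m by omega]
  refine Pool.Agent.R331.MT.content hs hst ht C ρ (fun k => Real.rpow_pos_of_pos (hpos k) _) ?_ ?_ A ?_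
  · have h1 : Tendsto (fun n : ℕ => (n : ℝ) + 1) atTop atTop :=
      tendsto_atTop_add_const_right _ _ tendsto_natCast_atTop_atTop
    exact (tendsto_rpow_neg_atTop hv1).comp h1
  · filter_upwards [hy] with x hx _
    refine (hshift _ hx).mono ?_
    rintro n ⟨q, h1, h2, r, hr⟩
    refine ⟨-(q * y + r) / ((n : ℝ) + 1), ⟨q, h1, h2, r, rfl⟩, ?_⟩
    have e : x - -(q * y + r) / ((n : ℝ) + 1) = (((n + 1 : ℕ) : ℝ) * x + q * y + r) / ((n : ℝ) + 1) := by
      have := hpos n
      field_simp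
      push_cast
      ring
    rw [e, abs_div, abs_of_pos (hpos n), div_lt_iff₀ (hpos n)]
    refine lt_of_lt_of_le hr (le_of_eq ?_)
    simp only [hρ]
    push_cast
    rw [neg_add, Real.rpow_add (hpos n), Real.rpow_neg_one]
    field_simp
  · refine subset_trans ?_ hA
    rintro x ⟨hx1, hx2⟩
    refine ⟨?_, hx1⟩
    change ∃ᶠ n : ℕ in atTop, ∃ q : ℕ, 1 ≤ q ∧ q ≤ n ∧ ∃ r : ℤ,
      |(n : ℝ) * x + q * y + r| < (n : ℝ) ^ (-w)
    rw [frequently_atTop] at hx2 ⊢
    intro N
    obtain ⟨n, hn, c, ⟨q, h1, h2, r, rfl⟩, hc⟩ := hx2 N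
    refine ⟨n + 1, by omega, q, h1, h2, r, ?_⟩
    have e : x - -(q * y + r) / ((n : ℝ) + 1) = (((n + 1 : ℕ) : ℝ) * x + q * y + r) / ((n : ℝ) + 1) := by
      have := hpos n
      field_simp
      push_cast
      ring
    rw [e, abs_div, abs_of_pos (hpos n), div_lt_iff₀ (hpos n)] at hc
    refine lt_of_lt_of_le hc (le_of_eq ?_)
    simp only [hρ]
    push_cast
    rw [← Real.rpow_mul (hpos n).le]
    have e2 : -(v + 1) * (1 / ((v + 1) / (w + 1))) = -w + -1 := by
      field_simp
      ring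
    rw [e2, Real.rpow_add (hpos n), Real.rpow_neg_one]
    have := hpos n
    field_simp

/-- Slicing: if almost all vertical slices have large content then so has the set. -/
theorem hausdorff_pos {s : ℝ} (hs : 0 < s) (E : Set (ℝ × ℝ))
    (hE : ∀ᵐ y : ℝ, ∀ A : ℕ → Set ℝ, {x | (y, x) ∈ E} ∩ Icc 0 1 ⊆ ⋃ j, A j →
      ENNReal.ofReal (1 / 20) ≤ ∑' j, Metric.ediam (A j) ^ s) :
    ENNReal.ofReal (1 / 20) ≤ μH[1 + s] E := by
  rw [Measure.hausdorffMeasure_apply]
  refine le_iSup₂_of_le 1 one_pos ?_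
  refine le_iInf fun U => le_iInf fun hU => le_iInf fun hd => ?_
  -- the slices
  set V : ℕ → Set ℝ := fun j => closure (Prod.fst '' U j) with hV
  have hVm : ∀ j, MeasurableSet (V j) := fun j => isClosed_closure.measurableSet
  have hVvol : ∀ j, volume (V j) ≤ Metric.ediam (U j) := by
    intro j
    refine (Real.volume_le_diam _).trans ?_
    rw [hV]
    simp only [Metric.ediam_closure]
    have := (LipschitzWith.prod_fst (α := ℝ) (β := ℝ)).ediam_image_le (U j)
    simpa using this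
  have hslice : ∀ j y, Metric.ediam {x | (y, x) ∈ U j} ^ s ≤
      (V j).indicator (fun _ => Metric.ediam (U j) ^ s) y := by
    intro j y
    by_cases hy : y ∈ V j
    · rw [indicator_of_mem hy]
      gcongr
      apply Metric.ediam_le
      intro a ha b hb
      have := Metric.edist_le_ediam_of_mem (s := U j) ha hb
      refine le_trans ?_ this
      rw [Prod.edist_eq]
      exact le_max_right _ _
    · rw [indicator_of_notMem hy]
      have he : {x | (y, x) ∈ U j} = ∅ := by
        ext x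
        simp only [mem_ofPred_eq, mem_empty_iff_false, iff_false]
        intro hx
        exact hy (subset_closure ⟨(y, x), hx, rfl⟩)
      rw [he, Metric.ediam_empty, ENNReal.zero_rpow_of_pos hs]
  have hbound : ∀ᵐ y ∂(volume.restrict (Icc (0 : ℝ) 1)), ENNReal.ofReal (1 / 20) ≤
      ∑' j, (V j).indicator (fun _ => Metric.ediam (U j) ^ s) y := by
    refine ae_restrict_of_ae ?_
    filter_upwards [hE] with y hy
    have h1 := hy (fun j => {x | (y, x) ∈ U j}) (by
      rintro x ⟨hx, _⟩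
      have := hU hx
      rw [mem_iUnion] at this ⊢
      exact this)
    exact h1.trans (ENNReal.tsum_le_tsum fun j => hslice j y)
  have hint : ENNReal.ofReal (1 / 20) ≤ ∫⁻ y in Icc (0 : ℝ) 1,
      ∑' j, (V j).indicator (fun _ => Metric.ediam (U j) ^ s) y := by
    calc ENNReal.ofReal (1 / 20) = ∫⁻ _ in Icc (0 : ℝ) 1, ENNReal.ofReal (1 / 20) := by
          rw [setLIntegral_const, Real.volume_Icc]
          simp
      _ ≤ _ := lintegral_mono_ae hbound
  refine hint.trans ?_
  rw [lintegral_tsum fun j => (measurable_const.indicator (hVm j)).aemeasurable]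
  refine ENNReal.tsum_le_tsum fun j => ?_
  by_cases hne : (U j).Nonempty
  · rw [ciSup_pos hne]
    rw [lintegral_indicator_const (hVm j)]
    have h1 : (volume.restrict (Icc (0 : ℝ) 1)) (V j) ≤ Metric.ediam (U j) :=
      (Measure.restrict_apply_le _ _).trans (hVvol j)
    calc Metric.ediam (U j) ^ s * (volume.restrict (Icc (0 : ℝ) 1)) (V j)
        ≤ Metric.ediam (U j) ^ s * Metric.ediam (U j) := by gcongr
      _ = Metric.ediam (U j) ^ (1 + s) := by
          rw [ENNReal.rpow_add_of_nonneg _ _ zero_le_one hs.le, ENNReal.rpow_one, mul_comm]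
  · rw [not_nonempty_iff_eq_empty] at hne
    have hVe : V j = ∅ := by
      rw [hV]
      simp [hne]
    rw [hVe]
    simp

theorem lower {w : ℝ} (hw : 2 < w) : ENNReal.ofReal (1 + 3 / (w + 1)) ≤ dimH (F w) := by
  have hw1 : 0 < w + 1 := by linarith
  have key : ∀ s : ℝ, 0 < s → s < 3 / (w + 1) → ENNReal.ofReal (1 + s) ≤ dimH (F w) := by
    intro s hs hst
    rw [lt_div_iff₀ hw1] at hst
    -- choose `v` with `s (w + 1) < v + 1 < 3`
    set v : ℝ := max ((s * (w + 1) + 3) / 2 - 1) 1 with hv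
    have h1 : s * (w + 1) < v + 1 := by
      have := le_max_left ((s * (w + 1) + 3) / 2 - 1) 1
      rw [← hv] at this
      linarith
    have h2 : v < 2 := by
      rw [hv]
      apply max_lt <;> linarith
    have h0 : 1 ≤ v := le_max_right _ _
    have h3 := hausdorff_pos hs (F w) (slice_content (v := v) (w := w) (by linarith) h2 (by linarith) hs
      (by rw [lt_div_iff₀ hw1]; exact h1))
    have h4 : μH[((1 + s : ℝ).toNNReal : ℝ)] (F w) ≠ 0 := by
      rw [Real.coe_toNNReal _ (by linarith)]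
      intro h
      rw [h] at h3
      have : (0 : ℝ≥0∞) < ENNReal.ofReal (1 / 20) := by
        rw [ENNReal.ofReal_pos]
        norm_num
      exact absurd h3 (not_le.2 this)
    exact le_dimH_of_hausdorffMeasure_ne_zero h4
  refine le_of_forall_lt fun c hc => ?_
  have hctop : c ≠ ∞ := (hc.trans ENNReal.ofReal_lt_top).ne
  set c' := c.toReal with hc'
  have hcc : c = ENNReal.ofReal c' := (ENNReal.ofReal_toReal hctop).symm
  have hlt : c' < 1 + 3 / (w + 1) := by
    rw [hcc] at hc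
    exact (ENNReal.ofReal_lt_ofReal_iff (by positivity)).1 hc
  have h3 : 0 < 3 / (w + 1) := by positivity
  set s : ℝ := (max (c' - 1) 0 + 3 / (w + 1)) / 2 with hs
  have hm : max (c' - 1) 0 < 3 / (w + 1) := max_lt (by linarith) h3
  have hm0 : 0 ≤ max (c' - 1) 0 := le_max_right _ _
  have hm1 : c' - 1 ≤ max (c' - 1) 0 := le_max_left _ _
  have h5 := key s (by linarith) (by linarith)
  refine lt_of_lt_of_le ?_ h5
  rw [hcc]
  refine (ENNReal.ofReal_lt_ofReal_iff (by linarith)).2 ?_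
  linarith

end Pool.Agent.D0H41.LF
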