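import Pool.Agent.D0H41.LF.Dir

set_option autoImplicit false

/-!
Almost all `(y, x)` belong to `⋃ C, G C`.
-/

namespace Pool.Agent.D0H41.LF

open Filter Topology MeasureTheory Set Metric
open scoped ENNReal

theorem isOpen_form (n q : ℕ) (r : ℤ) (c : ℝ) :
    IsOpen {z : ℝ × ℝ | |(n : ℝ) * z.2 + q * z.1 + r| < c} :=
  isOpen_lt (by fun_prop) continuous_const

theorem measurable_G (C : ℝ) : MeasurableSet (G C) := by
  have e : G C = ⋂ N : ℕ, ⋃ n : ℕ, ⋃ (_ : N ≤ n), ⋃ q : ℕ, ⋃ (_ : 1 ≤ q), ⋃ (_ : q ≤ n), ⋃ r : ℤ,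
      {z : ℝ × ℝ | |(n : ℝ) * z.2 + q * z.1 + r| < C / (n : ℝ) ^ 2} := by
    ext z
    simp only [G, mem_ofPred_eq, frequently_atTop, mem_iInter, mem_iUnion, exists_prop]
  rw [e]
  refine MeasurableSet.iInter fun N => MeasurableSet.iUnion fun n => MeasurableSet.iUnion fun _ =>
    MeasurableSet.iUnion fun q => MeasurableSet.iUnion fun _ => MeasurableSet.iUnion fun _ =>
    MeasurableSet.iUnion fun r => (isOpen_form n q r _).measurableSet

theorem G_mono {C C' : ℝ} (h : C ≤ C') : G C ⊆ G C' := by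
  intro z hz
  refine hz.mono ?_
  rintro n ⟨q, h1, h2, r, hr⟩
  exact ⟨q, h1, h2, r, lt_of_lt_of_le hr (by gcongr)⟩

theorem G_add_int {C : ℝ} {z : ℝ × ℝ} (a b : ℤ) (hz : z ∈ G C) :
    (z.1 + (a : ℝ), z.2 + (b : ℝ)) ∈ G C := by
  refine Frequently.mono hz ?_
  rintro n ⟨q, h1, h2, r, hr⟩
  refine ⟨q, h1, h2, r - n * b - q * a, ?_⟩
  have e : (n : ℝ) * (z.2 + b) + q * (z.1 + a) + ((r - n * b - q * a : ℤ) : ℝ) =
      (n : ℝ) * z.2 + q * z.1 + r := by
    push_cast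
    ring
  simp only [e]
  exact hr

theorem G_of_double {C : ℝ} {z : ℝ × ℝ} (hz : (2 : ℝ) • z ∈ G C) : z ∈ G (4 * C) := by
  unfold G at hz ⊢
  rw [mem_ofPred_eq, frequently_atTop] at hz ⊢
  intro N
  obtain ⟨n, hn, q, h1, h2, r, hr⟩ := hz N
  refine ⟨2 * n, by omega, 2 * q, by omega, by omega, r, ?_⟩
  have hn1 : 1 ≤ n := by omega
  have hnR : (1 : ℝ) ≤ n := by exact_mod_cast hn1
  simp only [Prod.smul_fst, Prod.smul_snd, smul_eq_mul] at hr
  have e : ((2 * n : ℕ) : ℝ) * z.2 + ((2 * q : ℕ) : ℝ) * z.1 + r =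
      (n : ℝ) * (2 * z.2) + q * (2 * z.1) + r := by
    push_cast
    ring
  rw [e]
  refine lt_of_lt_of_le hr (le_of_eq ?_)
  push_cast
  field_simp
  ring

/-- the union of the `G C` -/
def GS : Set (ℝ × ℝ) := ⋃ C : ℕ, G C

theorem measurable_GS : MeasurableSet GS := MeasurableSet.iUnion fun _ => measurable_G _

theorem GS_add_int {z : ℝ × ℝ} (a b : ℤ) (hz : z ∈ GS) : (z.1 + (a : ℝ), z.2 + (b : ℝ)) ∈ GS := by
  obtain ⟨C, hC⟩ := mem_iUnion.1 hz
  exact mem_iUnion.2 ⟨C, G_add_int a b hC⟩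

theorem GS_of_double {z : ℝ × ℝ} (hz : (2 : ℝ) • z ∈ GS) : z ∈ GS := by
  obtain ⟨C, hC⟩ := mem_iUnion.1 hz
  refine mem_iUnion.2 ⟨4 * C, ?_⟩
  have := G_of_double hC
  push_cast
  exact this

theorem GS_of_pow {z : ℝ × ℝ} (k : ℕ) (hz : ((2 : ℝ) ^ k) • z ∈ GS) : z ∈ GS := by
  induction k generalizing z with
  | zero => simpa using hz
  | succ k ih =>
    apply GS_of_double
    apply ih
    rw [smul_smul, ← pow_succ]
    exact hz

theorem ae_lin : ∀ᵐ z : ℝ × ℝ, ∀ p q r : ℤ, (p ≠ 0 ∨ q ≠ 0) → (p : ℝ) * z.2 + q * z.1 + r ≠ 0 := by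
  rw [ae_all_iff]
  intro p
  rw [ae_all_iff]
  intro q
  rw [ae_all_iff]
  intro r
  by_cases hpq : p ≠ 0 ∨ q ≠ 0
  swap
  · exact Eventually.of_forall fun z h => absurd h hpq
  have hmeas : MeasurableSet {z : ℝ × ℝ | (p : ℝ) * z.2 + q * z.1 + r = 0} :=
    (isClosed_eq (by fun_prop) continuous_const).measurableSet
  have hnull : (volume : Measure (ℝ × ℝ)) {z : ℝ × ℝ | (p : ℝ) * z.2 + q * z.1 + r = 0} = 0 := by
    rw [Measure.volume_eq_prod, Measure.measure_prod_null hmeas]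
    by_cases hp : p = 0
    · have hq : q ≠ 0 := by
        rcases hpq with h | h
        · exact absurd hp h
        · exact h
      have hqR : (q : ℝ) ≠ 0 := by exact_mod_cast hq
      have h0 : ∀ᵐ y : ℝ, y ≠ -(r : ℝ) / q := by
        have : (volume : Measure ℝ) {-(r : ℝ) / q} = 0 := Real.volume_singleton
        exact measure_eq_zero_iff_ae_notMem.1 this
      filter_upwards [h0] with y hy
      have e : Prod.mk y ⁻¹' {z : ℝ × ℝ | (p : ℝ) * z.2 + q * z.1 + r = 0} = ∅ := by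
        ext x
        simp only [mem_preimage, mem_ofPred_eq, mem_empty_iff_false, iff_false]
        intro h
        apply hy
        rw [hp] at h
        push_cast at h
        field_simp
        linarith
      rw [e, measure_empty]
      rfl
    · have hpR : (p : ℝ) ≠ 0 := by exact_mod_cast hp
      refine Eventually.of_forall fun y => ?_
      have e : Prod.mk y ⁻¹' {z : ℝ × ℝ | (p : ℝ) * z.2 + q * z.1 + r = 0} ⊆
          {-(q * y + r) / p} := by
        intro x hx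
        simp only [mem_preimage, mem_ofPred_eq] at hx
        rw [mem_singleton_iff]
        field_simp
        linarith
      exact le_antisymm ((measure_mono e).trans (le_of_eq Real.volume_singleton)) zero_le
  have h1 := measure_eq_zero_iff_ae_notMem.1 hnull
  filter_upwards [h1] with z hz _ h
  exact hz h

theorem ae_tame : ∀ᵐ x : ℝ, Tame x := by
  have h1 : ∀ᵐ x : ℝ, ¬ LiouvilleWith 3 x := by
    filter_upwards [ae_not_liouvilleWith] with x hx
    exact hx 3 (by norm_num)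
  have h2 : ∀ᵐ x : ℝ, Irrational x := by
    have : (volume : Measure ℝ) (range ((↑) : ℚ → ℝ)) = 0 := (countable_range _).measure_zero _
    filter_upwards [measure_eq_zero_iff_ae_notMem.1 this] with x hx
    exact hx
  filter_upwards [h1, h2] with x hx hx2
  exact tame_of_not_liouville hx hx2

theorem ae_four : ∀ᵐ z : ℝ × ℝ,
    (z.1, z.2) ∈ G 1 ∨ (-z.1, z.2) ∈ G 1 ∨ (z.2, z.1) ∈ G 1 ∨ (-z.2, z.1) ∈ G 1 := by
  have h1 : ∀ᵐ z : ℝ × ℝ, Tame z.1 := by
    rw [Measure.volume_eq_prod]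
    exact Measure.quasiMeasurePreserving_fst.ae ae_tame
  have h2 : ∀ᵐ z : ℝ × ℝ, Tame z.2 := by
    rw [Measure.volume_eq_prod]
    exact Measure.quasiMeasurePreserving_snd.ae ae_tame
  filter_upwards [h1, h2, ae_lin] with z hz1 hz2 hz
  exact four hz2 hz1 hz

theorem volume_box : (volume : Measure (ℝ × ℝ)) (Icc (-1) 1 ×ˢ Icc (-1) 1) = 4 := by
  rw [Measure.volume_eq_prod, Measure.prod_prod, Real.volume_Icc]
  rw [← ENNReal.ofReal_mul (by norm_num)]
  norm_num

theorem mp_neg : MeasurePreserving (fun z : ℝ × ℝ => (-z.1, z.2)) volume volume := by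
  have := (Measure.measurePreserving_neg (volume : Measure ℝ)).prod
    (MeasurePreserving.id (volume : Measure ℝ))
  exact this

theorem mp_swap : MeasurePreserving (fun z : ℝ × ℝ => (z.2, z.1)) volume volume :=
  Measure.measurePreserving_swap

theorem mp_swapneg : MeasurePreserving (fun z : ℝ × ℝ => (-z.2, z.1)) volume volume :=
  mp_neg.comp mp_swap

theorem one_le_box : 1 ≤ (volume : Measure (ℝ × ℝ)) (GS ∩ Icc (-1) 1 ×ˢ Icc (-1) 1) := by
  set B : Set (ℝ × ℝ) := Icc (-1) 1 ×ˢ Icc (-1) 1 with hB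
  have hmB : MeasurableSet B := measurableSet_Icc.prod measurableSet_Icc
  set H : Set (ℝ × ℝ) := GS ∩ B with hH
  have hmH : MeasurableSet H := measurable_GS.inter hmB
  have hG1 : G 1 ⊆ GS := by
    intro z hz
    refine mem_iUnion.2 ⟨1, ?_⟩
    push_cast
    exact hz
  have hcov : B ≤ᵐ[volume] (H ∪ (fun z : ℝ × ℝ => (-z.1, z.2)) ⁻¹' H ∪
      (fun z : ℝ × ℝ => (z.2, z.1)) ⁻¹' H ∪ (fun z : ℝ × ℝ => (-z.2, z.1)) ⁻¹' H : Set (ℝ × ℝ)) := by
    filter_upwards [ae_four] with z hz hzB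
    have hzB' : z ∈ B := hzB
    rw [hB, mem_prod, mem_Icc, mem_Icc] at hzB'
    obtain ⟨⟨a1, a2⟩, b1, b2⟩ := hzB'
    show z ∈ (H ∪ (fun z : ℝ × ℝ => (-z.1, z.2)) ⁻¹' H ∪
      (fun z : ℝ × ℝ => (z.2, z.1)) ⁻¹' H ∪ (fun z : ℝ × ℝ => (-z.2, z.1)) ⁻¹' H : Set (ℝ × ℝ))
    rcases hz with h | h | h | h
    · left; left; left
      exact ⟨hG1 h, hzB⟩
    · left; left; right
      refine ⟨hG1 h, ?_⟩
      rw [hB, mem_prod, mem_Icc, mem_Icc]
      exact ⟨⟨by simp only; linarith, by simp only; linarith⟩, b1, b2⟩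
    · left; right
      refine ⟨hG1 h, ?_⟩
      rw [hB, mem_prod, mem_Icc, mem_Icc]
      exact ⟨⟨b1, b2⟩, a1, a2⟩
    · right
      refine ⟨hG1 h, ?_⟩
      rw [hB, mem_prod, mem_Icc, mem_Icc]
      exact ⟨⟨by simp only; linarith, by simp only; linarith⟩, a1, a2⟩
  have h4 : (4 : ℝ≥0∞) ≤ 4 * volume H := by
    calc (4 : ℝ≥0∞) = volume B := volume_box.symm
      _ ≤ volume (H ∪ (fun z : ℝ × ℝ => (-z.1, z.2)) ⁻¹' H ∪
          (fun z : ℝ × ℝ => (z.2, z.1)) ⁻¹' H ∪ (fun z : ℝ × ℝ => (-z.2, z.1)) ⁻¹' H) :=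
        measure_mono_ae hcov
      _ ≤ volume H + volume ((fun z : ℝ × ℝ => (-z.1, z.2)) ⁻¹' H) +
          volume ((fun z : ℝ × ℝ => (z.2, z.1)) ⁻¹' H) +
          volume ((fun z : ℝ × ℝ => (-z.2, z.1)) ⁻¹' H) := by
        refine (measure_union_le _ _).trans ?_
        gcongr
        refine (measure_union_le _ _).trans ?_
        gcongr
        exact measure_union_le _ _
      _ = 4 * volume H := by
        rw [mp_neg.measure_preimage hmH.nullMeasurableSet, mp_swap.measure_preimage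
          hmH.nullMeasurableSet, mp_swapneg.measure_preimage hmH.nullMeasurableSet]
        ring
  by_contra hcon
  push Not at hcon
  have : 4 * volume H < 4 * 1 := by
    rw [ENNReal.mul_lt_mul_iff_right (by norm_num) (by norm_num)]
    exact hcon
  rw [mul_one] at this
  exact absurd (lt_of_le_of_lt h4 this) (lt_irrefl _)

end Pool.Agent.D0H41.LF
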