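import Mathlib
import Pool.Agent.R425.MK.Lim

set_option autoImplicit false

/-!
Upper bound for the Hausdorff dimension of the limsup set, by covering strips by small pieces.
-/

namespace Pool.Agent.D0H41.LF

open Filter Topology MeasureTheory Set Metric
open scoped ENNReal NNReal

/-- the index set of the pieces -/
abbrev Idx (w : ℝ) (m : ℕ) : Type :=
  Σ n : ℕ, Fin (n + 2) × Fin (6 * m * (n + 1) + 1) × Fin (⌊2 * (m : ℝ) * ((n : ℝ) + 1) ^ (w + 1)⌋₊ + 1)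

/-- the pieces of the strips -/
def piece (w : ℝ) (m : ℕ) (i : Idx w m) : Set (ℝ × ℝ) :=
  {z | |((i.1 : ℝ) + 1) * z.2 + (i.2.1 : ℕ) * z.1 + ((i.2.2.1 : ℕ) - 3 * (m : ℝ) * ((i.1 : ℝ) + 1))| ≤
      m * ((i.1 : ℝ) + 1) ^ (-w) ∧
    ((i.2.2.2 : ℕ) : ℝ) ≤ (z.1 + m) * ((i.1 : ℝ) + 1) ^ (w + 1) ∧
    (z.1 + m) * ((i.1 : ℝ) + 1) ^ (w + 1) ≤ ((i.2.2.2 : ℕ) : ℝ) + 1}

/-- the bound for the diameters -/
noncomputable def dm (w : ℝ) (m : ℕ) (i : Idx w m) : ℝ := (1 + 2 * (m : ℝ)) * ((i.1 : ℝ) + 1) ^ (-(w + 1))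

theorem ediam_piece (w : ℝ) (m : ℕ) (i : Idx w m) :
    Metric.ediam (piece w m i) ≤ ENNReal.ofReal (dm w m i) := by
  obtain ⟨n, q, r, k⟩ := i
  have hn : (0 : ℝ) < (n : ℝ) + 1 := by positivity
  have hq : ((q : ℕ) : ℝ) ≤ (n : ℝ) + 1 := by
    have : (q : ℕ) ≤ n + 1 := by omega
    exact_mod_cast this
  apply Metric.ediam_le
  intro z hz z' hz'
  simp only [piece, mem_ofPred_eq] at hz hz'
  rw [edist_dist]
  apply ENNReal.ofReal_le_ofReal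
  simp only [dm]
  generalize ((k : ℕ) : ℝ) = kk at hz hz'
  generalize ((r : ℕ) : ℝ) = rr at hz hz'
  generalize (n : ℝ) + 1 = P at hn hq hz hz' ⊢
  have hδ : 0 < P ^ (-(w + 1)) := Real.rpow_pos_of_pos hn _
  have hδ1 : P ^ (w + 1) * P ^ (-(w + 1)) = 1 := by
    rw [← Real.rpow_add hn]
    simp
  have hδ2 : P ^ (-w) = P * P ^ (-(w + 1)) := by
    rw [neg_add, Real.rpow_add hn, Real.rpow_neg_one]
    field_simp
  obtain ⟨a1, a2, a3⟩ := hz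
  obtain ⟨b1, b2, b3⟩ := hz'
  set δ : ℝ := P ^ (-(w + 1)) with hδd
  set W : ℝ := P ^ (w + 1) with hW
  have h1 : |z.1 - z'.1| ≤ δ := by
    have e : (z.1 - z'.1) = ((z.1 + m) * W - (z'.1 + m) * W) * δ := by
      have : ((z.1 + m) * W - (z'.1 + m) * W) * δ = (z.1 - z'.1) * (W * δ) := by ring
      rw [this, hδ1, mul_one]
    rw [e, abs_mul, abs_of_pos hδ]
    have h2 : |(z.1 + m) * W - (z'.1 + m) * W| ≤ 1 := by
      rw [abs_le]
      constructor <;> linarith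
    calc |(z.1 + m) * W - (z'.1 + m) * W| * δ ≤ 1 * δ := by gcongr
      _ = δ := one_mul _
  have h2 : |z.2 - z'.2| ≤ (1 + 2 * (m : ℝ)) * δ := by
    rw [abs_le] at a1 b1 h1
    rw [hδ2] at a1 b1
    have hq0 : (0 : ℝ) ≤ (q : ℕ) := by positivity
    have c1 : ((q : ℕ) : ℝ) * (z.1 - z'.1) ≤ P * δ := by
      calc ((q : ℕ) : ℝ) * (z.1 - z'.1) ≤ (q : ℕ) * δ := by gcongr; exact h1.2
        _ ≤ P * δ := by gcongr
    have c2 : -(P * δ) ≤ ((q : ℕ) : ℝ) * (z.1 - z'.1) := by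
      calc -(P * δ) ≤ -((q : ℕ) * δ) := by
            have : ((q : ℕ) : ℝ) * δ ≤ P * δ := by gcongr
            linarith
        _ = ((q : ℕ) : ℝ) * (-δ) := by ring
        _ ≤ ((q : ℕ) : ℝ) * (z.1 - z'.1) := by gcongr; exact h1.1
    have c3 : P * |z.2 - z'.2| ≤ P * ((1 + 2 * (m : ℝ)) * δ) := by
      rw [← abs_of_pos hn, ← abs_mul, abs_of_pos hn, abs_le]
      constructor <;> nlinarith [a1.1, a1.2, b1.1, b1.2]
    exact le_of_mul_le_mul_left c3 hn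
  rw [Prod.dist_eq, Real.dist_eq, Real.dist_eq]
  apply max_le
  · refine h1.trans ?_
    have : (0 : ℝ) ≤ m := by positivity
    nlinarith
  · exact h2

theorem summable_dm {w D : ℝ} (hw : 0 < w) (m : ℕ) (hm : 1 ≤ m) (hD : 1 + 3 / (w + 1) < D) :
    Summable fun i : Idx w m => dm w m i ^ D := by
  have hw1 : 0 < w + 1 := by linarith
  have hexp : w + 3 - (w + 1) * D < -1 := by
    have h : (w + 1) * (1 + 3 / (w + 1)) < (w + 1) * D := by gcongr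
    have e : (w + 1) * (1 + 3 / (w + 1)) = w + 4 := by
      field_simp
      ring
    linarith
  have hmR : (1 : ℝ) ≤ m := by exact_mod_cast hm
  have hnn : ∀ i : Idx w m, 0 ≤ dm w m i ^ D := by
    intro i
    unfold dm
    positivity
  rw [summable_sigma_of_nonneg hnn]
  refine ⟨fun n => (hasSum_fintype _).summable, ?_⟩
  have hs : Summable fun n : ℕ => (42 * (m : ℝ) ^ 2 * (1 + 2 * (m : ℝ)) ^ D) *
      (((n + 1 : ℕ) : ℝ)) ^ (w + 3 - (w + 1) * D) := by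
    apply Summable.mul_left
    exact (summable_nat_add_iff 1).2 (Real.summable_nat_rpow.2 hexp)
  refine Summable.of_nonneg_of_le (fun n => tsum_nonneg fun y => hnn _) (fun n => ?_) hs
  rw [tsum_fintype]
  simp only [dm, Finset.sum_const, Finset.card_univ, Fintype.card_prod, Fintype.card_fin, nsmul_eq_mul]
  have hn : (0 : ℝ) < (n : ℝ) + 1 := by positivity
  have hn1 : (1 : ℝ) ≤ (n : ℝ) + 1 := by
    have : (0 : ℝ) ≤ n := by positivity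
    linarith
  push_cast
  set P : ℝ := (n : ℝ) + 1 with hP
  have hW1 : 1 ≤ P ^ (w + 1) := Real.one_le_rpow hn1 hw1.le
  have hfl : (⌊2 * (m : ℝ) * P ^ (w + 1)⌋₊ : ℝ) ≤ 2 * (m : ℝ) * P ^ (w + 1) :=
    Nat.floor_le (by positivity)
  have e1 : ((1 + 2 * (m : ℝ)) * P ^ (-(w + 1))) ^ D =
      (1 + 2 * (m : ℝ)) ^ D * P ^ (-((w + 1) * D)) := by
    rw [Real.mul_rpow (by positivity) (by positivity), ← Real.rpow_mul hn.le]
    congr 2
    ring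
  have e2 : P ^ (w + 3 - (w + 1) * D) = P * P * P ^ (w + 1) * P ^ (-((w + 1) * D)) := by
    rw [show w + 3 - (w + 1) * D = 1 + 1 + (w + 1) + (-((w + 1) * D)) by ring, Real.rpow_add hn,
      Real.rpow_add hn, Real.rpow_add hn, Real.rpow_one]
  rw [e1, e2]
  have k1 : (n : ℝ) + 2 ≤ 2 * P := by
    rw [hP]
    have : (0 : ℝ) ≤ n := by positivity
    linarith
  have k2 : 6 * (m : ℝ) * P + 1 ≤ 7 * m * P := by nlinarith
  have k3 : (⌊2 * (m : ℝ) * P ^ (w + 1)⌋₊ : ℝ) + 1 ≤ 3 * m * P ^ (w + 1) := by nlinarith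
  have hA : 0 ≤ (1 + 2 * (m : ℝ)) ^ D * P ^ (-((w + 1) * D)) := by positivity
  calc ((n : ℝ) + 2) * ((6 * (m : ℝ) * P + 1) * ((⌊2 * (m : ℝ) * P ^ (w + 1)⌋₊ : ℝ) + 1)) *
        ((1 + 2 * (m : ℝ)) ^ D * P ^ (-((w + 1) * D)))
      ≤ (2 * P) * ((7 * m * P) * (3 * m * P ^ (w + 1))) *
        ((1 + 2 * (m : ℝ)) ^ D * P ^ (-((w + 1) * D))) := by gcongr
    _ = _ := by ring

/-- one orientation, bounded part -/
def E1 (w : ℝ) (m : ℕ) : Set (ℝ × ℝ) :=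
  {z | |z.1| ≤ m ∧ |z.2| ≤ m ∧ {t : ℤ × ℤ × ℤ | 0 < t.2.1 ∧ t.2.1 ≤ t.1 ∧
    |(t.1 : ℝ) * z.2 + t.2.1 * z.1 + t.2.2| < m * (t.1 : ℝ) ^ (-w)}.Infinite}

theorem dimH_E1 {w D : ℝ} (hw : 0 < w) (m : ℕ) (hm : 1 ≤ m) (hD : 1 + 3 / (w + 1) < D) :
    dimH (E1 w m) ≤ ENNReal.ofReal D := by
  have hw1 : 0 < w + 1 := by linarith
  have hmR : (1 : ℝ) ≤ m := by exact_mod_cast hm
  have hD0 : 0 < D := lt_trans (by positivity) hD
  have h := Pool.Agent.R425.MK.dimH_limsup (piece w m) (dm w m)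
    (fun i => by unfold dm; positivity) (ediam_piece w m) hD0 (summable_dm hw m hm hD)
  refine (dimH_mono ?_).trans h
  rintro z ⟨hz1, hz2, hz3⟩
  rw [mem_ofPred_eq]
  set g : Idx w m → ℤ × ℤ × ℤ := fun i => ((i.1 : ℤ) + 1, (((i.2.1 : ℕ)) : ℤ),
    (((i.2.2.1 : ℕ)) : ℤ) - 3 * m * ((i.1 : ℤ) + 1)) with hg
  apply Set.Infinite.of_image g
  refine hz3.mono ?_
  rintro ⟨p, q, r⟩ ⟨h1, h2, h3⟩
  simp only at h1 h2 h3
  obtain ⟨n, rfl⟩ : ∃ n : ℕ, p = n + 1 := ⟨(p - 1).toNat, by omega⟩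
  obtain ⟨q', rfl⟩ : ∃ q' : ℕ, q = q' := ⟨q.toNat, by omega⟩
  have hn : (0 : ℝ) < (n : ℝ) + 1 := by positivity
  have hn1 : (1 : ℝ) ≤ (n : ℝ) + 1 := by
    have : (0 : ℝ) ≤ n := by positivity
    linarith
  push_cast at h3
  set P : ℝ := (n : ℝ) + 1 with hP
  have hq : (q' : ℝ) ≤ P := by
    rw [hP]
    exact_mod_cast h2
  have hPw : P ^ (-w) ≤ 1 := Real.rpow_le_one_of_one_le_of_nonpos hn1 (by linarith)
  rw [abs_le] at hz1 hz2
  have hr : |(r : ℝ)| ≤ 3 * m * P := by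
    have h4 := abs_lt.1 h3
    have h5 : (m : ℝ) * P ^ (-w) ≤ m * P := by
      have : P ^ (-w) ≤ P := hPw.trans hn1
      gcongr
    have h6 : P * z.2 ≤ P * m := by gcongr; exact hz2.2
    have h7 : P * (-m) ≤ P * z.2 := by gcongr; exact hz2.1
    have hq0 : (0 : ℝ) ≤ q' := by positivity
    have h8 : (q' : ℝ) * z.1 ≤ P * m := by
      calc (q' : ℝ) * z.1 ≤ q' * m := by gcongr; exact hz1.2
        _ ≤ P * m := by gcongr
    have h9 : -(P * m) ≤ (q' : ℝ) * z.1 := by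
      have a : (q' : ℝ) * m ≤ P * m := by gcongr
      have b : (q' : ℝ) * (-m) ≤ q' * z.1 := by gcongr; exact hz1.1
      linarith
    rw [abs_le]
    constructor <;> nlinarith [h4.1, h4.2]
  have hr' : |r| ≤ 3 * m * (n + 1) := by
    have : ((|r| : ℤ) : ℝ) ≤ ((3 * m * (n + 1) : ℤ) : ℝ) := by
      push_cast
      exact hr
    exact_mod_cast this
  rw [abs_le] at hr'
  obtain ⟨r', hr2⟩ : ∃ r' : ℕ, (r' : ℤ) = r + 3 * m * (n + 1) := by
    refine ⟨(r + 3 * m * (n + 1)).toNat, ?_⟩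
    rw [Int.toNat_of_nonneg]
    linarith [hr'.1]
  have hr3 : r' < 6 * m * (n + 1) + 1 := by
    have : (r' : ℤ) < 6 * m * (n + 1) + 1 := by
      rw [hr2]
      linarith [hr'.2]
    exact_mod_cast this
  set k : ℕ := ⌊(z.1 + m) * P ^ (w + 1)⌋₊ with hk
  have hk0 : 0 ≤ (z.1 + m) * P ^ (w + 1) := by
    have : 0 ≤ z.1 + m := by linarith [hz1.1]
    positivity
  have hk1 : k < ⌊2 * (m : ℝ) * P ^ (w + 1)⌋₊ + 1 := by
    apply Nat.lt_succ_of_le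
    apply Nat.floor_le_floor
    have : z.1 + m ≤ 2 * m := by linarith [hz1.2]
    gcongr
  refine ⟨⟨n, ⟨q', by omega⟩, ⟨r', hr3⟩, ⟨k, hk1⟩⟩, ?_, ?_⟩
  · simp only [piece, mem_ofPred_eq]
    rw [← hP]
    refine ⟨?_, Nat.floor_le hk0, (Nat.lt_floor_add_one _).le⟩
    have e : (r' : ℝ) - 3 * (m : ℝ) * P = r := by
      have h5 : ((r' : ℤ) : ℝ) = ((r + 3 * m * (n + 1) : ℤ) : ℝ) := by rw [hr2]
      push_cast at h5
      rw [h5, hP]
      ring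
    rw [e]
    exact h3.le
  · simp only [hg]
    rw [hr2]
    ext <;> simp

/-- The set of the problem, in the coordinates `(η, ξ)` of `ℝ × ℝ`. -/
def E' (w : ℝ) : Set (ℝ × ℝ) :=
  {z | ∃ c : ℝ, 0 < c ∧ {t : ℤ × ℤ × ℤ | 0 < t.1 ∧ 0 < t.2.1 ∧
    |(t.1 : ℝ) * z.2 + t.2.1 * z.1 + t.2.2| < c * (max t.1 t.2.1 : ℝ) ^ (-w)}.Infinite}

theorem E'_subset (w : ℝ) :
    E' w ⊆ (⋃ m : ℕ, E1 w (m + 1)) ∪ (⋃ m : ℕ, Prod.swap ⁻¹' (E1 w (m + 1))) := by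
  rintro z ⟨c, hc, hz⟩
  obtain ⟨m, hm⟩ := exists_nat_ge (max (max |z.1| |z.2|) c)
  have hm1 : |z.1| ≤ ((m + 1 : ℕ) : ℝ) := by
    push_cast
    linarith [le_max_left |z.1| |z.2|, le_max_left (max |z.1| |z.2|) c]
  have hm2 : |z.2| ≤ ((m + 1 : ℕ) : ℝ) := by
    push_cast
    linarith [le_max_right |z.1| |z.2|, le_max_left (max |z.1| |z.2|) c]
  have hm3 : c ≤ ((m + 1 : ℕ) : ℝ) := by
    push_cast
    linarith [le_max_right (max |z.1| |z.2|) c]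
  set T : Set (ℤ × ℤ × ℤ) := {t : ℤ × ℤ × ℤ | 0 < t.1 ∧ 0 < t.2.1 ∧
    |(t.1 : ℝ) * z.2 + t.2.1 * z.1 + t.2.2| < c * (max t.1 t.2.1 : ℝ) ^ (-w)} with hT
  have hsplit : T = (T ∩ {t | t.2.1 ≤ t.1}) ∪ (T ∩ {t | t.1 ≤ t.2.1}) := by
    rw [← inter_union_distrib_left]
    ext t
    simp only [mem_inter_iff, mem_union, mem_ofPred_eq]
    constructor
    · intro h
      exact ⟨h, le_total _ _⟩
    · intro h
      exact h.1
  rw [hsplit, infinite_union] at hz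
  rcases hz with hz | hz
  · left
    rw [mem_iUnion]
    refine ⟨m, hm1, hm2, hz.mono ?_⟩
    rintro t ⟨⟨h1, h2, h3⟩, h4⟩
    simp only [mem_ofPred_eq] at h4 ⊢
    refine ⟨h2, h4, lt_of_lt_of_le h3 ?_⟩
    have h5 : max (t.1 : ℝ) t.2.1 = t.1 := max_eq_left (by exact_mod_cast h4)
    rw [h5]
    have h6 : (0 : ℝ) < t.1 := by exact_mod_cast h1
    have h7 : 0 ≤ (t.1 : ℝ) ^ (-w) := Real.rpow_nonneg h6.le _
    gcongr
  · right
    rw [mem_iUnion]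
    refine ⟨m, hm2, hm1, ?_⟩
    have hinj : Function.Injective (fun t : ℤ × ℤ × ℤ => (t.2.1, t.1, t.2.2)) := by
      rintro ⟨a, b, c⟩ ⟨a', b', c'⟩ h
      simp only [Prod.mk.injEq] at h ⊢
      tauto
    refine (hz.image hinj.injOn).mono ?_
    rintro _ ⟨t, ⟨⟨h1, h2, h3⟩, h4⟩, rfl⟩
    simp only [mem_ofPred_eq, Prod.fst_swap, Prod.snd_swap] at h4 ⊢
    refine ⟨h1, h4, lt_of_lt_of_le (b := c * (max t.1 t.2.1 : ℝ) ^ (-w)) ?_ ?_⟩
    · rw [add_comm ((t.2.1 : ℝ) * z.1) ((t.1 : ℝ) * z.2)]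
      exact h3
    · have h5 : max (t.1 : ℝ) t.2.1 = t.2.1 := max_eq_right (by exact_mod_cast h4)
      rw [h5]
      have h6 : (0 : ℝ) < t.2.1 := by exact_mod_cast h2
      have h7 : 0 ≤ (t.2.1 : ℝ) ^ (-w) := Real.rpow_nonneg h6.le _
      gcongr

theorem upper {w : ℝ} (hw : 0 < w) : dimH (E' w) ≤ ENNReal.ofReal (1 + 3 / (w + 1)) := by
  have hw1 : 0 < w + 1 := by linarith
  have key : ∀ D : ℝ, 1 + 3 / (w + 1) < D → dimH (E' w) ≤ ENNReal.ofReal D := by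
    intro D hD
    refine (dimH_mono (E'_subset w)).trans ?_
    rw [dimH_union, dimH_iUnion, dimH_iUnion]
    refine max_le (iSup_le fun m => dimH_E1 hw (m + 1) (by omega) hD) (iSup_le fun m => ?_)
    have hiso : Isometry (Prod.swap : ℝ × ℝ → ℝ × ℝ) := by
      intro a b
      simp only [Prod.edist_eq, Prod.fst_swap, Prod.snd_swap]
      exact max_comm _ _
    have e : (Prod.swap ⁻¹' (E1 w (m + 1)) : Set (ℝ × ℝ)) = Prod.swap '' (E1 w (m + 1)) := by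
      rw [image_swap_eq_preimage_swap]
    rw [e, hiso.dimH_image]
    exact dimH_E1 hw (m + 1) (by omega) hD
  refine le_of_forall_gt fun c hc => ?_
  by_cases hctop : c = ∞
  · rw [hctop]
    exact lt_of_le_of_lt (key (1 + 3 / (w + 1) + 1) (by linarith)) ENNReal.ofReal_lt_top
  set c' := c.toReal with hc'
  have hcc : c = ENNReal.ofReal c' := (ENNReal.ofReal_toReal hctop).symm
  have h3 : 0 < 3 / (w + 1) := by positivity
  have hlt : 1 + 3 / (w + 1) < c' := by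
    rw [hcc] at hc
    exact ((ENNReal.ofReal_lt_ofReal_iff_of_nonneg (by positivity)).1 hc)
  have h5 := key ((1 + 3 / (w + 1) + c') / 2) (by linarith)
  refine lt_of_le_of_lt h5 ?_
  rw [hcc]
  refine (ENNReal.ofReal_lt_ofReal_iff (by linarith)).2 ?_
  linarith

end Pool.Agent.D0H41.LF
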