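import Pool.Agent.D0H41.LF.Meas

set_option autoImplicit false

/-!
Almost all `(y, x)` belong to `GS`, by the density theorem.
-/

namespace Pool.Agent.D0H41.LF

open Filter Topology MeasureTheory Set Metric
open scoped ENNReal Pointwise

theorem volume_closedBall (z : ℝ × ℝ) (r : ℝ) (hr : 0 ≤ r) :
    (volume : Measure (ℝ × ℝ)) (closedBall z r) = ENNReal.ofReal (4 * r ^ 2) := by
  rw [show z = (z.1, z.2) from rfl, ← closedBall_prod_same, Measure.volume_eq_prod,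
    Measure.prod_prod, Real.volume_closedBall, Real.volume_closedBall,
    ← ENNReal.ofReal_mul (by positivity)]
  congr 1
  ring

/-- the part of `GS` in a ball of radius two -/
theorem one_le_ball (y : ℝ × ℝ) : 1 ≤ (volume : Measure (ℝ × ℝ)) (GS ∩ closedBall y 2) := by
  set a : ℤ := round y.1 with ha
  set b : ℤ := round y.2 with hb
  have h1 : (fun z : ℝ × ℝ => z + (-(a : ℝ), -(b : ℝ))) ⁻¹' (GS ∩ Icc (-1) 1 ×ˢ Icc (-1) 1) ⊆
      GS ∩ closedBall y 2 := by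
    rintro z ⟨hz1, hz2⟩
    refine ⟨?_, ?_⟩
    · have := GS_add_int a b hz1
      simpa using this
    · rw [mem_prod, mem_Icc, mem_Icc] at hz2
      simp only [Prod.fst_add, Prod.snd_add] at hz2
      obtain ⟨⟨c1, c2⟩, d1, d2⟩ := hz2
      rw [mem_closedBall, Prod.dist_eq, Real.dist_eq, Real.dist_eq]
      have e1 := abs_le.1 (abs_sub_round y.1)
      have e2 := abs_le.1 (abs_sub_round y.2)
      rw [← ha] at e1
      rw [← hb] at e2
      apply max_le <;> rw [abs_le] <;> constructor <;> linarith [e1.1, e1.2, e2.1, e2.2]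
  refine le_trans one_le_box (le_trans (le_of_eq ?_) (measure_mono h1))
  rw [measure_preimage_add_right]

theorem nat_two_pow_smul_closedBall (x : ℝ × ℝ) (k : ℕ) (r : ℝ) :
    ((2 : ℝ) ^ k) • closedBall x (r * (2 ^ k)⁻¹) ⊆ closedBall (((2 : ℝ) ^ k) • x) r := by
  rintro _ ⟨z, hz, rfl⟩
  rw [mem_closedBall] at hz ⊢
  rw [dist_smul₀, Real.norm_of_nonneg (by positivity)]
  have h2 : (0 : ℝ) < 2 ^ k := by positivity
  calc (2 : ℝ) ^ k * dist z x ≤ 2 ^ k * (r * (2 ^ k)⁻¹) := by gcongr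
    _ = r := by field_simp

/-- the complement of `GS` has density less than one everywhere -/
theorem compl_density (x : ℝ × ℝ) (k : ℕ) :
    (volume : Measure (ℝ × ℝ)) (GSᶜ ∩ closedBall x (2 * (2 ^ k)⁻¹)) ≤
      ENNReal.ofReal (15 / 16) * volume (closedBall x (2 * (2 ^ k)⁻¹)) := by
  have h2 : (0 : ℝ) < 2 ^ k := by positivity
  set S : Set (ℝ × ℝ) := GSᶜ ∩ closedBall x (2 * (2 ^ k)⁻¹) with hS
  have hsub : ((2 : ℝ) ^ k) • S ⊆ closedBall (((2 : ℝ) ^ k) • x) 2 \ GS := by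
    rintro _ ⟨z, hz, rfl⟩
    refine ⟨nat_two_pow_smul_closedBall x k 2 (smul_mem_smul_set hz.2), ?_⟩
    intro h
    exact hz.1 (GS_of_pow k h)
  have hvol : (volume : Measure (ℝ × ℝ)) (closedBall (((2 : ℝ) ^ k) • x) 2 \ GS) ≤ 15 := by
    have h1 : volume (closedBall (((2 : ℝ) ^ k) • x) 2) = 16 := by
      rw [volume_closedBall _ _ (by norm_num)]
      norm_num
    have h3 := measure_sdiff_add_inter (μ := (volume : Measure (ℝ × ℝ)))
      (closedBall (((2 : ℝ) ^ k) • x) 2) measurable_GS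
    have h4 := one_le_ball (((2 : ℝ) ^ k) • x)
    rw [inter_comm] at h4
    rw [h1] at h3
    have h5 : volume (closedBall (((2 : ℝ) ^ k) • x) 2 \ GS) + 1 ≤ 15 + 1 := by
      calc volume (closedBall (((2 : ℝ) ^ k) • x) 2 \ GS) + 1
          ≤ volume (closedBall (((2 : ℝ) ^ k) • x) 2 \ GS) +
            volume (closedBall (((2 : ℝ) ^ k) • x) 2 ∩ GS) := by gcongr
        _ = 16 := h3
        _ = 15 + 1 := by norm_num
    exact (ENNReal.add_le_add_iff_right (by norm_num)).1 h5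
  have hsm := Measure.addHaar_smul (volume : Measure (ℝ × ℝ)) ((2 : ℝ) ^ k) S
  have hfr : Module.finrank ℝ (ℝ × ℝ) = 2 := by simp
  rw [hfr] at hsm
  have h6 : ENNReal.ofReal |((2 : ℝ) ^ k) ^ 2| * volume S ≤ 15 := by
    rw [← hsm]
    exact (measure_mono hsub).trans hvol
  rw [abs_of_pos (by positivity)] at h6
  rw [volume_closedBall _ _ (by positivity), ← ENNReal.ofReal_mul (by norm_num)]
  have e : 15 / 16 * (4 * (2 * (2 ^ k)⁻¹) ^ 2) = 15 / ((2 : ℝ) ^ k) ^ 2 := by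
    field_simp
    ring
  rw [e, ENNReal.ofReal_div_of_pos (by positivity), ENNReal.le_div_iff_mul_le]
  · rw [mul_comm]
    refine h6.trans (le_of_eq ?_)
    norm_num
  · left
    rw [Ne, ENNReal.ofReal_eq_zero, not_le]
    positivity
  · left
    exact ENNReal.ofReal_ne_top

theorem ae_GS : ∀ᵐ z : ℝ × ℝ, z ∈ GS := by
  have hm := measurable_GS
  have h1 := Besicovitch.ae_tendsto_measure_inter_div (volume : Measure (ℝ × ℝ)) GSᶜ
  rw [ae_restrict_iff' hm.compl] at h1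
  filter_upwards [h1] with x hx
  by_contra hcon
  have h2 := hx hcon
  have h3 : Tendsto (fun k : ℕ => 2 * ((2 : ℝ) ^ k)⁻¹) atTop (𝓝[>] 0) := by
    rw [tendsto_nhdsWithin_iff]
    constructor
    · have : Tendsto (fun k : ℕ => ((1 : ℝ) / 2) ^ k) atTop (𝓝 0) :=
        tendsto_pow_atTop_nhds_zero_of_lt_one (by norm_num) (by norm_num)
      have h := this.const_mul 2
      rw [mul_zero] at h
      refine h.congr fun k => ?_
      rw [one_div, inv_pow]
    · refine Eventually.of_forall fun k => ?_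
      rw [mem_Ioi]
      positivity
  have h4 := h2.comp h3
  have h5 : ∀ k : ℕ, volume (GSᶜ ∩ closedBall x (2 * ((2 : ℝ) ^ k)⁻¹)) /
      volume (closedBall x (2 * ((2 : ℝ) ^ k)⁻¹)) ≤ ENNReal.ofReal (15 / 16) := by
    intro k
    apply ENNReal.div_le_of_le_mul
    exact compl_density x k
  have h6 : (1 : ℝ≥0∞) ≤ ENNReal.ofReal (15 / 16) :=
    le_of_tendsto h4 (Eventually.of_forall h5)
  rw [← ENNReal.ofReal_one, ENNReal.ofReal_le_ofReal_iff (by norm_num)] at h6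
  norm_num at h6

/-- For every exponent `v < 2`, almost all `(y, x)` have infinitely many solutions. -/
theorem ae_exp {v : ℝ} (hv : v < 2) : ∀ᵐ y : ℝ, ∀ᵐ x : ℝ, ∃ᶠ n : ℕ in atTop,
    ∃ q : ℕ, 1 ≤ q ∧ q ≤ n ∧ ∃ r : ℤ, |(n : ℝ) * x + q * y + r| < (n : ℝ) ^ (-v) := by
  have h := ae_GS
  rw [Measure.volume_eq_prod] at h
  have h2 := Measure.ae_ae_of_ae_prod h
  filter_upwards [h2] with y hy
  filter_upwards [hy] with x hx
  obtain ⟨C, hC⟩ := mem_iUnion.1 hx
  have h3 : ∀ᶠ n : ℕ in atTop, (C : ℝ) ≤ (n : ℝ) ^ (2 - v) :=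
    (tendsto_rpow_atTop (by linarith)).comp tendsto_natCast_atTop_atTop |>.eventually_ge_atTop _
  have h4 : ∃ᶠ n : ℕ in atTop, (∃ q : ℕ, 1 ≤ q ∧ q ≤ n ∧ ∃ r : ℤ,
    |(n : ℝ) * x + q * y + r| < C / (n : ℝ) ^ 2) := hC
  refine (h4.and_eventually (h3.and (eventually_ge_atTop 1))).mono ?_
  rintro n ⟨⟨q, h5, h6, r, hr⟩, h7, hn⟩
  have hnR : (1 : ℝ) ≤ n := by exact_mod_cast hn
  have hn0 : (0 : ℝ) < n := by linarith
  refine ⟨q, h5, h6, r, lt_of_lt_of_le hr ?_⟩
  have e : (n : ℝ) ^ (-v) = (n : ℝ) ^ (2 - v) / (n : ℝ) ^ 2 := by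
    rw [← Real.rpow_natCast (n : ℝ) 2, ← Real.rpow_sub hn0]
    congr 1
    push_cast
    ring
  rw [e]
  gcongr

end Pool.Agent.D0H41.LF
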